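import Mathlib
import Pool.Agent.P.MP_1f07eb_co.N.All

set_option autoImplicit false

namespace Pool.Agent.Results.MP_1f07eb_co.NearOptimal

/-- The Akiyama-Alon conjecture up to a factor n^eps, in every dimension and for every k: a family
of d-point simplices on n points in general position in R^d with no k pairwise disjoint members
has at most C(d,k,eps) n^(d-1+eps) members. -/
theorem result (d k : ℕ) (hd : 1 ≤ d) (ε : ℝ) (hε : 0 < ε) : ∃ C : ℝ,
    ∀ V : Finset (EuclideanSpace ℝ (Fin d)),
      (∀ S ⊆ V, S.card ≤ d + 1 →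
        AffineIndependent ℝ (fun x : S => (x : EuclideanSpace ℝ (Fin d)))) →
      ∀ E : Finset (Finset (EuclideanSpace ℝ (Fin d))),
        (∀ e ∈ E, e ⊆ V ∧ e.card = d) →
        (¬ ∃ F ⊆ E, F.card = k ∧
            (F : Set (Finset (EuclideanSpace ℝ (Fin d)))).Pairwise
              (fun e f => Disjoint (convexHull ℝ (e : Set (EuclideanSpace ℝ (Fin d))))
                (convexHull ℝ (f : Set (EuclideanSpace ℝ (Fin d)))))) →
        (E.card : ℝ) ≤ C * (V.card : ℝ) ^ ((d : ℝ) - 1 + ε) :=
  Pool.Agent.P.MP_1f07eb_co.N.all_final d k ε hd hε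

end Pool.Agent.Results.MP_1f07eb_co.NearOptimal
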