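import Mathlib
import Pool.Agent.P.MP_1f07eb_co.LogMain

set_option autoImplicit false

namespace Pool.Agent.Results.MP_1f07eb_co.PolylogThree

/-- The Akiyama-Alon conjecture in dimension three up to a polylogarithmic factor: for every
k >= 2 a family of triangles on n points in general position in R^3 with no k pairwise disjoint
members has at most C n^2 (log n)^(5(k-2)) members. -/
theorem result (k : ℕ) (hk : 2 ≤ k) : ∃ C : ℝ,
    ∀ V : Finset (EuclideanSpace ℝ (Fin 3)),
      (∀ S ⊆ V, S.card ≤ 3 + 1 →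
        AffineIndependent ℝ (fun x : S => (x : EuclideanSpace ℝ (Fin 3)))) →
      ∀ E : Finset (Finset (EuclideanSpace ℝ (Fin 3))),
        (∀ e ∈ E, e ⊆ V ∧ e.card = 3) →
        (¬ ∃ F ⊆ E, F.card = k ∧
            (F : Set (Finset (EuclideanSpace ℝ (Fin 3)))).Pairwise
              (fun e f => Disjoint (convexHull ℝ (e : Set (EuclideanSpace ℝ (Fin 3))))
                (convexHull ℝ (f : Set (EuclideanSpace ℝ (Fin 3)))))) →
        (E.card : ℝ) ≤ C * (V.card : ℝ) ^ 2 * Real.log (V.card : ℝ) ^ (5 * (k - 2)) := by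
  obtain ⟨j, rfl⟩ : ∃ j, k = j + 2 := ⟨k - 2, by omega⟩
  exact ⟨_, fun V hV E hE hF => Pool.Agent.P.MP_1f07eb_co.Log.main_real j V hV E hE hF⟩

end Pool.Agent.Results.MP_1f07eb_co.PolylogThree
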