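import Mathlib
import Pool.Agent.P.MP_1f07eb_co.Three

set_option autoImplicit false

namespace Pool.Agent.Results.MP_1f07eb_co.ThreeDisjoint

open Pool.Agent.P.MP_1f07eb_co.Three in
/-- The case (d, k) = (3, 3) of the Akiyama-Alon conjecture: a family of triangles on n points in
general position in R^3 with no three pairwise disjoint members has at most 16 C(n, 2) members. -/
theorem result (V : Finset (EuclideanSpace ℝ (Fin 3)))
    (hV : ∀ S ⊆ V, S.card ≤ 3 + 1 →
      AffineIndependent ℝ (fun x : S => (x : EuclideanSpace ℝ (Fin 3))))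
    (E : Finset (Finset (EuclideanSpace ℝ (Fin 3))))
    (hE : ∀ e ∈ E, e ⊆ V ∧ e.card = 3)
    (hno : ¬ ∃ F ⊆ E, F.card = 3 ∧
      (F : Set (Finset (EuclideanSpace ℝ (Fin 3)))).Pairwise
        (fun e f => Disjoint (convexHull ℝ (e : Set (EuclideanSpace ℝ (Fin 3))))
          (convexHull ℝ (f : Set (EuclideanSpace ℝ (Fin 3)))))) :
    E.card ≤ 16 * V.card.choose 2 := by
  classical
  refine three_bound V hV E hE (fun e he f hf g hg hef heg hfg => hno ?_)
  have hne : ∀ a ∈ E, ∀ b : Finset Pt, Disjoint (hull a) (hull b) → a ≠ b := by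
    rintro a ha _ h rfl
    obtain ⟨x, hx⟩ : a.Nonempty := Finset.card_pos.1 (by rw [(hE a ha).2]; omega)
    have hx' : x ∈ hull a := subset_convexHull ℝ _ hx
    exact Set.disjoint_left.1 h hx' hx'
  refine ⟨{e, f, g}, ?_, Finset.card_eq_three.2
    ⟨e, f, g, hne e he f hef, hne e he g heg, hne f hf g hfg, rfl⟩, ?_⟩
  · intro a ha
    simp only [Finset.mem_insert, Finset.mem_singleton] at ha
    rcases ha with rfl | rfl | rfl <;> assumption
  · intro a ha b hb hab
    simp only [Finset.coe_insert, Finset.coe_singleton, Set.mem_insert_iff,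
      Set.mem_singleton_iff] at ha hb
    rcases ha with rfl | rfl | rfl <;> rcases hb with rfl | rfl | rfl <;>
      first
        | exact absurd rfl hab
        | assumption
        | exact Disjoint.symm (by assumption)

end Pool.Agent.Results.MP_1f07eb_co.ThreeDisjoint
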