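import Mathlib
import Pool.Agent.P.MP_1f07eb_co.Geom

set_option autoImplicit false

namespace Pool.Agent.Results.MP_1f07eb_co.TwoDisjoint

/-- The case k = 2 of the Akiyama-Alon conjecture in every dimension d: a family of d-point
simplices on n points in general position in R^d, no two of them disjoint, has at most
C(n, d-1) members. -/
theorem result (d : ℕ) (hd : 1 ≤ d) (V : Finset (EuclideanSpace ℝ (Fin d)))
    (hV : ∀ S ⊆ V, S.card ≤ d + 1 →
      AffineIndependent ℝ (fun x : S => (x : EuclideanSpace ℝ (Fin d))))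
    (E : Finset (Finset (EuclideanSpace ℝ (Fin d))))
    (hE : ∀ e ∈ E, e ⊆ V ∧ e.card = d)
    (hmeet : ∀ e ∈ E, ∀ f ∈ E, e ≠ f →
      ¬ Disjoint (convexHull ℝ (e : Set (EuclideanSpace ℝ (Fin d))))
        (convexHull ℝ (f : Set (EuclideanSpace ℝ (Fin d))))) :
    E.card ≤ V.card.choose (d - 1) := by
  by_contra hbig
  obtain ⟨e, he, f, hf, hdis⟩ :=
    Pool.Agent.P.MP_1f07eb_co.two_disjoint d hd V hV E hE (not_le.1 hbig)
  refine hmeet e he f hf ?_ hdis
  rintro rfl
  obtain ⟨x, hx⟩ : e.Nonempty := Finset.card_pos.1 (by rw [(hE e he).2]; omega)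
  have hx' : x ∈ convexHull ℝ (e : Set (EuclideanSpace ℝ (Fin d))) :=
    subset_convexHull ℝ _ hx
  exact Set.disjoint_left.1 hdis hx' hx'

end Pool.Agent.Results.MP_1f07eb_co.TwoDisjoint
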